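import Mathlib
import Pool.Agent.R722.FGCon
import Pool.Agent.R722.FGSimp

/-!
# A finite group whose subgroup-lattice incidence algebra has global dimension larger than every
degree of a nonzero extension group from `S_H` to `S_{Frattini H}`

The group is the semidirect product of the elementary abelian group of order `121` with the
generalized quaternion group of order `24` (acting without fixed points), of order `2904`.
-/

set_option autoImplicit false

open CategoryTheory CategoryTheory.Abelian

namespace Pool.Agent.Results.MP_70614a_al.FrattiniGldim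

noncomputable instance decEq (G : Type) [Group G] : DecidableEq (Subgroup G) := Classical.decEq _

noncomputable instance lfo (G : Type) [Group G] [Finite G] : LocallyFiniteOrder (Subgroup G) :=
  LocallyFiniteOrder.ofFiniteIcc fun _ _ => Set.toFinite _

/-- The incidence algebra over `ℚ` of the poset of all subgroups of `G`. -/
abbrev IA (G : Type) [Group G] [Finite G] : Type := IncidenceAlgebra ℚ (Subgroup G)

/-- The simple module `S_H`: the vector space `ℚ` with `f • q = f H H * q`. -/
noncomputable abbrev S {G : Type} [Group G] [Finite G] (H : Subgroup G) : ModuleCat.{0} (IA G) :=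
  ModuleCat.of (IA G) (Pool.Agent.R722.FG.Sim H)

/-- The Frattini subgroup of the group `H`, as a subgroup of `G`. -/
def Fr {G : Type} [Group G] (H : Subgroup G) : Subgroup G := (frattini H).map H.subtype

/-- The set of all `n` for which `Ext^n(S_H, S_{Fr H})` is nonzero for some `H`. -/
def frattiniDegrees (G : Type) [Group G] [Finite G] : Set ℕ :=
  {n | ∃ H : Subgroup G, Nontrivial (Ext.{0} (S H) (S (Fr H)) n)}

/-- The global dimension: the supremum of the projective dimensions of all modules. -/
noncomputable def gldim (G : Type) [Group G] [Finite G] : WithBot ℕ∞ :=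
  ⨆ M : ModuleCat.{0} (IA G), projectiveDimension M

/-- There is a group of order `2904` for which the global dimension of the incidence algebra of the
subgroup lattice is at least `4`, while `Ext^n(S_H, S_{Fr H})` is zero for all subgroups `H` and
all `n ≥ 4`. -/
theorem result : ∃ (G : Type) (_ : Group G) (_ : Finite G), Nat.card G = 2904 ∧
    (∀ n ∈ frattiniDegrees G, n ≤ 3) ∧ 4 ≤ gldim G := by
  classical
  refine ⟨Pool.Agent.R722.FG.GG, inferInstance, inferInstance,
    Pool.Agent.R722.FG.card_GG, ?_, ?_⟩
  · let _ : Fintype (Subgroup Pool.Agent.R722.FG.GG) := Fintype.ofFinite _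
    rintro n ⟨H, hH⟩
    by_contra hn
    obtain ⟨k, rfl⟩ : ∃ k, n = k + 4 := ⟨n - 4, by omega⟩
    have h1 := Pool.Agent.R722.FG.vanishing Pool.Agent.R722.FG.hyp H k
    have h2 := (Pool.Agent.R722.FG.v_sim H (Fr H) (k + 4)).2 h1
    exact not_subsingleton_iff_nontrivial.2 hH h2
  · let _ : Fintype (Subgroup Pool.Agent.R722.FG.GG) := Fintype.ofFinite _
    refine le_trans ?_ (le_iSup (fun M : ModuleCat.{0} (IA Pool.Agent.R722.FG.GG) =>
      projectiveDimension M) (S ⊤))
    refine (projectiveDimension_ge_iff _ 4).2 fun hlt => ?_
    have h1 := Pool.Agent.R722.FG.nonvanishing Pool.Agent.R722.FG.hyp Pool.Agent.R722.FG.hyp2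
    refine h1 ((Pool.Agent.R722.FG.v_sim _ _ 4).1 ?_)
    exact HasProjectiveDimensionLT.subsingleton _ 4 4 le_rfl _

end Pool.Agent.Results.MP_70614a_al.FrattiniGldim
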